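import Mathlib

/-!
Auxiliary sums for the `L¹` Bernstein inequality on hyperbolic crosses.
-/

set_option autoImplicit false

namespace Pool.Agent.H778R2.LB

open Finset

theorem q_pow (k : ℕ) : (2 : ℝ) ^ (-((k : ℝ) / 4)) = ((2 : ℝ) ^ (-(1 / 4) : ℝ)) ^ k := by
  rw [← Real.rpow_natCast, ← Real.rpow_mul (by norm_num : (0 : ℝ) ≤ 2)]
  congr 1
  ring

theorem q_le : (2 : ℝ) ^ (-(1 / 4) : ℝ) ≤ 6 / 7 := by
  have h0 : (0 : ℝ) ≤ (2 : ℝ) ^ (-(1 / 4) : ℝ) := by positivity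
  by_contra h
  push Not at h
  have h1 : (6 / 7 : ℝ) ^ 4 < ((2 : ℝ) ^ (-(1 / 4) : ℝ)) ^ 4 :=
    pow_lt_pow_left₀ h (by norm_num) (by norm_num)
  rw [← Real.rpow_natCast ((2 : ℝ) ^ (-(1 / 4) : ℝ)), ← Real.rpow_mul (by norm_num : (0 : ℝ) ≤ 2)]
    at h1
  have h2 : (-(1 / 4) : ℝ) * ((4 : ℕ) : ℝ) = -1 := by norm_num
  rw [h2, Real.rpow_neg_one] at h1
  norm_num at h1

theorem wsum_one (M : ℕ) :
    ∑ k ∈ Icc (-(M : ℤ)) (M : ℤ), (2 : ℝ) ^ (-(|(k : ℝ)| / 4)) ≤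
      13 - 12 * ((2 : ℝ) ^ (-(1 / 4) : ℝ)) ^ M := by
  induction M with
  | zero => simp; norm_num
  | succ M ih =>
    have hI : Icc (-((M + 1 : ℕ) : ℤ)) ((M + 1 : ℕ) : ℤ) =
        insert ((M + 1 : ℕ) : ℤ) (insert (-((M + 1 : ℕ) : ℤ)) (Icc (-(M : ℤ)) (M : ℤ))) := by
      ext k
      simp only [mem_Icc, mem_insert]
      push_cast
      omega
    have h1 : ((M + 1 : ℕ) : ℤ) ∉ insert (-((M + 1 : ℕ) : ℤ)) (Icc (-(M : ℤ)) (M : ℤ)) := by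
      simp only [mem_Icc, mem_insert]
      push_cast
      omega
    have h2 : (-((M + 1 : ℕ) : ℤ)) ∉ Icc (-(M : ℤ)) (M : ℤ) := by
      simp only [mem_Icc]
      push_cast
      omega
    rw [hI, sum_insert h1, sum_insert h2]
    have e1 : |(((M + 1 : ℕ) : ℤ) : ℝ)| = ((M + 1 : ℕ) : ℝ) := by
      rw [Int.cast_natCast, abs_of_nonneg (by positivity)]
    have e2 : |((-((M + 1 : ℕ) : ℤ) : ℤ) : ℝ)| = ((M + 1 : ℕ) : ℝ) := by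
      rw [Int.cast_neg, Int.cast_natCast, abs_neg, abs_of_nonneg (by positivity)]
    rw [e1, e2, q_pow]
    set q : ℝ := (2 : ℝ) ^ (-(1 / 4) : ℝ) with hq
    have hq0 : 0 ≤ q ^ M := by positivity
    have hq1 := q_le
    rw [← hq] at hq1
    rw [pow_succ]
    nlinarith

theorem wsum_one' (M : ℕ) :
    ∑ k ∈ Icc (-(M : ℤ)) (M : ℤ), (2 : ℝ) ^ (-(|(k : ℝ)| / 4)) ≤ 13 := by
  have h := wsum_one M
  have h0 : (0 : ℝ) ≤ ((2 : ℝ) ^ (-(1 / 4) : ℝ)) ^ M := by positivity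
  linarith

theorem wsum {d : ℕ} (J : Fin d → Finset ℤ)
    (hJ : ∀ s, ∑ k ∈ J s, (2 : ℝ) ^ (-(|(k : ℝ)| / 4)) ≤ 13) :
    ∑ w ∈ Fintype.piFinset J, (2 : ℝ) ^ (-((∑ s, |(w s : ℝ)|) / 4)) ≤ 13 ^ d := by
  have h1 : ∀ w : Fin d → ℤ, (2 : ℝ) ^ (-((∑ s, |(w s : ℝ)|) / 4)) =
      ∏ s, (2 : ℝ) ^ (-(|(w s : ℝ)| / 4)) := by
    intro w
    rw [← Real.rpow_sum_of_pos (by norm_num : (0 : ℝ) < 2)]
    congr 1
    rw [Finset.sum_neg_distrib, Finset.sum_div]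
  simp only [h1]
  rw [← Finset.prod_univ_sum J (fun _ (k : ℤ) => (2 : ℝ) ^ (-(|(k : ℝ)| / 4)))]
  calc ∏ s, ∑ k ∈ J s, (2 : ℝ) ^ (-(|(k : ℝ)| / 4)) ≤ ∏ _s : Fin d, (13 : ℝ) :=
        Finset.prod_le_prod (fun s _ => Finset.sum_nonneg fun k _ => by positivity)
          (fun s _ => hJ s)
    _ = 13 ^ d := by simp

/-- triangle inequality in `ℓ²` -/
theorem l2_tri {ι κ : Type*} (P : Finset ι) (Us : Finset κ) (a : ι → ℝ) (b : κ → ι → ℝ)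
    (h0 : ∀ i ∈ P, 0 ≤ a i) (h : ∀ i ∈ P, a i ≤ ∑ U ∈ Us, b U i) :
    Real.sqrt (∑ i ∈ P, a i ^ 2) ≤ ∑ U ∈ Us, Real.sqrt (∑ i ∈ P, b U i ^ 2) := by
  classical
  let v : κ → EuclideanSpace ℝ P := fun U => WithLp.toLp 2 (fun i : P => b U i)
  have hn : ∀ U, ‖v U‖ = Real.sqrt (∑ i ∈ P, b U i ^ 2) := by
    intro U
    rw [EuclideanSpace.norm_eq]
    congr 1
    rw [← Finset.sum_coe_sort P]
    refine Finset.sum_congr rfl fun i _ => ?_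
    simp [v]
  have h1 : Real.sqrt (∑ i ∈ P, a i ^ 2) ≤ ‖∑ U ∈ Us, v U‖ := by
    rw [EuclideanSpace.norm_eq]
    apply Real.sqrt_le_sqrt
    rw [← Finset.sum_coe_sort P]
    refine Finset.sum_le_sum fun i _ => ?_
    have e : (∑ U ∈ Us, v U).ofLp i = ∑ U ∈ Us, b U i := by
      rw [WithLp.ofLp_sum, Finset.sum_apply]
    rw [e, Real.norm_eq_abs, sq_abs]
    exact pow_le_pow_left₀ (h0 i i.2) (h i i.2) 2
  refine h1.trans ((norm_sum_le _ _).trans (le_of_eq ?_))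
  exact Finset.sum_congr rfl fun U _ => hn U

end Pool.Agent.H778R2.LB
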